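import Mathlib

set_option autoImplicit false

namespace Pool.Agent.P.MP_94cdcb_an

section Defs

variable {X : Type} [NormedAddCommGroup X] [NormedSpace ℝ X]

/-- The slice `S(A, f, ε) = {x ∈ A : f x > sup_A f - ε}`. -/
def slice (A : Set X) (f : X →L[ℝ] ℝ) (ε : ℝ) : Set X :=
  {x | x ∈ A ∧ sSup (f '' A) - ε < f x}

/-- A sequence of sets `V n` is determining for `A` if every set `B` meeting every `V n` has
`A` inside its closed convex hull. -/
def Determining (A : Set X) (V : ℕ → Set X) : Prop :=
  ∀ B : Set X, (∀ n, (B ∩ V n).Nonempty) → A ⊆ closure (convexHull ℝ B)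

/-- A bounded set is SCD if some sequence of its slices is determining. -/
def IsSCD (A : Set X) : Prop :=
  Bornology.IsBounded A ∧
    ∃ (f : ℕ → X →L[ℝ] ℝ) (ε : ℕ → ℝ), (∀ n, f n ≠ 0) ∧ (∀ n, 0 < ε n) ∧
      Determining A (fun n => slice A (f n) (ε n))

/-- A bounded set is hereditarily SCD if every subset of it is SCD. -/
def IsHereditarilySCD (U : Set X) : Prop :=
  Bornology.IsBounded U ∧ ∀ V : Set X, V ⊆ U → IsSCD V

end Defs

end Pool.Agent.P.MP_94cdcb_an
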