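import Mathlib
import Pool.Agent.P.MP_94cdcb_an.Defs

set_option autoImplicit false

open Set Pointwise TopologicalSpace

namespace Pool.Agent.P.MP_94cdcb_an

section Biorthogonal

variable {X : Type} [NormedAddCommGroup X] [NormedSpace ℝ X]

theorem bddAbove_image {A : Set X} (hA : Bornology.IsBounded A) (f : X →L[ℝ] ℝ) :
    BddAbove (f '' A) :=
  (f.lipschitz.isBounded_image hA).bddAbove

theorem convexHull_le {s : Set X} (φ : X →L[ℝ] ℝ) (c : ℝ) (h : ∀ x ∈ s, φ x ≤ c) :
    ∀ x ∈ convexHull ℝ s, φ x ≤ c := by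
  have hc : Convex ℝ {x : X | φ x ≤ c} := convex_halfSpace_le φ.toLinearMap.isLinear c
  exact fun x hx => convexHull_min (fun y hy => h y hy) hc hx

/-- The convex hull of a bounded countable family with biorthogonal functionals is
hereditarily SCD. -/
theorem hereditarilySCD_convexHull {ι : Type} [Countable ι] [Nonempty ι] [DecidableEq ι]
    (a : ι → X) (hb : Bornology.IsBounded (range a)) (γ : ι → X →L[ℝ] ℝ)
    (hγ : ∀ i j, γ i (a j) = if i = j then 1 else 0) :
    IsHereditarilySCD (convexHull ℝ (range a)) := by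
  have hbU : Bornology.IsBounded (convexHull ℝ (range a)) := isBounded_convexHull.2 hb
  refine ⟨hbU, fun V hV => ⟨hbU.subset hV, ?_⟩⟩
  let φ : (ι →₀ ℚ) → X →L[ℝ] ℝ := fun c => ∑ i ∈ c.support, ((c i : ℚ) : ℝ) • γ i
  have hφ : ∀ c j, φ c (a j) = ((c j : ℚ) : ℝ) := by
    intro c j
    simp only [φ, _root_.sum_apply, _root_.smul_apply, hγ,
      smul_eq_mul, mul_ite, mul_one, mul_zero, Finset.sum_ite_eq']
    split_ifs with h
    · rfl
    · simp [Finsupp.notMem_support_iff.1 h]
  have hne : Nonempty ({c : ι →₀ ℚ // φ c ≠ 0} × ℕ) := by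
    obtain ⟨i⟩ := ‹Nonempty ι›
    refine ⟨⟨⟨Finsupp.single i 1, fun h => ?_⟩, 0⟩⟩
    have := hφ (Finsupp.single i 1) i
    rw [h] at this
    simp at this
  obtain ⟨e, he⟩ := exists_surjective_nat ({c : ι →₀ ℚ // φ c ≠ 0} × ℕ)
  refine ⟨fun n => φ (e n).1.1, fun n => 1 / (((e n).2 : ℝ) + 1), fun n => (e n).1.2,
    fun n => by positivity, ?_⟩
  intro B hB v hv
  by_contra hvB
  obtain ⟨h, u, hu, huv⟩ := geometric_hahn_banach_closed_point
    (convex_convexHull ℝ B).closure isClosed_closure hvB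
  obtain ⟨k, hk⟩ := exists_nat_one_div_lt (show 0 < (h v - u) / 2 by linarith)
  set η : ℝ := 1 / ((k : ℝ) + 1) with hη
  have hηpos : 0 < η := by positivity
  have hη1 : η ≤ 1 := by
    rw [hη, div_le_one (by positivity)]
    have : (0 : ℝ) ≤ k := Nat.cast_nonneg k
    linarith
  obtain ⟨M, hM⟩ := bddAbove_image hb (-h)
  have hM' : ∀ j, -M ≤ h (a j) := by
    intro j
    have := hM ⟨a j, ⟨j, rfl⟩, rfl⟩
    simp only [_root_.neg_apply] at this
    linarith
  set L : ℝ := M + 2 with hL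
  have hvU := hV hv
  rw [convexHull_eq_union_convexHull_finite_subsets] at hvU
  simp only [mem_iUnion] at hvU
  obtain ⟨t, ht, hvt⟩ := hvU
  classical
  rw [← image_univ] at ht
  obtain ⟨F, -, hF⟩ := Finset.subset_set_image_iff.1 ht
  have hq : ∀ j, ∃ q : ℚ, h (a j) + L - η < q ∧ (q : ℝ) < h (a j) + L :=
    fun j => exists_rat_btwn (by linarith)
  choose q hq1 hq2 using hq
  let c : ι →₀ ℚ := Finsupp.onFinset F (fun j => if j ∈ F then q j else 0) (by
    intro j hj
    by_contra hjF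
    simp [hjF] at hj)
  have hc : ∀ j, c j = if j ∈ F then q j else 0 := fun j => rfl
  have hup : ∀ x ∈ convexHull ℝ (range a), (φ c - h) x ≤ L := by
    apply convexHull_le
    rintro x ⟨j, rfl⟩
    simp only [_root_.sub_apply, hφ, hc]
    split_ifs
    · linarith [hq2 j]
    · have := hM' j
      simp only [Rat.cast_zero]
      linarith
  have hlow : (h - φ c) v ≤ η - L := by
    refine convexHull_le (h - φ c) (η - L) ?_ v hvt
    intro x hx
    rw [← hF] at hx
    simp only [Finset.coe_image, mem_image, Finset.mem_coe] at hx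
    obtain ⟨j, hj, rfl⟩ := hx
    simp only [_root_.sub_apply, hφ, hc, if_pos hj]
    linarith [hq1 j]
  simp only [_root_.sub_apply] at hup hlow
  have hv0 : -M ≤ h v := by
    have := convexHull_le (-h) M (s := range a) (by
      rintro x ⟨j, rfl⟩
      have := hM' j
      simp only [_root_.neg_apply]
      linarith) v (hV hv)
    simp only [_root_.neg_apply] at this
    linarith
  have hc0 : φ c ≠ 0 := by
    intro h0
    rw [h0] at hlow
    simp only [_root_.zero_apply] at hlow
    linarith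
  obtain ⟨n, hn⟩ := he (⟨c, hc0⟩, k)
  obtain ⟨b, hbB, hbV, hb2⟩ := hB n
  simp only [hn] at hb2
  have h1 : φ c v ≤ sSup (φ c '' V) :=
    le_csSup (bddAbove_image (hbU.subset hV) _) ⟨v, hv, rfl⟩
  have h2 := hup b (hV hbV)
  have h3 := hu b (subset_closure (subset_convexHull ℝ B hbB))
  rw [← hη] at hb2
  linarith

end Biorthogonal

section Cantor

/-- The Cantor space. -/
abbrev Cantor : Type := ℕ → Bool

/-- Indicator function of a clopen set. -/
noncomputable def chi (U : Clopens Cantor) : C(Cantor, ℝ) :=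
  ⟨Set.indicator (U : Set Cantor) 1,
    continuous_indicator (by simp [U.isClopen.frontier_eq]) continuous_const.continuousOn⟩

theorem chi_of_mem {U : Clopens Cantor} {x : Cantor} (h : x ∈ U) : chi U x = 1 := by
  simp only [chi, ContinuousMap.coe_mk]
  exact Set.indicator_of_mem h _

theorem chi_of_notMem {U : Clopens Cantor} {x : Cantor} (h : x ∉ U) : chi U x = 0 := by
  simp only [chi, ContinuousMap.coe_mk]
  exact Set.indicator_of_notMem h _

theorem chi_le_one (U : Clopens Cantor) (x : Cantor) : chi U x ≤ 1 := by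
  by_cases h : x ∈ U
  · rw [chi_of_mem h]
  · rw [chi_of_notMem h]; norm_num

theorem chi_nonneg (U : Clopens Cantor) (x : Cantor) : 0 ≤ chi U x := by
  by_cases h : x ∈ U
  · rw [chi_of_mem h]; norm_num
  · rw [chi_of_notMem h]

theorem norm_chi_le (U : Clopens Cantor) : ‖chi U‖ ≤ 1 := by
  rw [ContinuousMap.norm_le _ zero_le_one]
  intro x
  rw [Real.norm_eq_abs, abs_le]
  exact ⟨by linarith [chi_nonneg U x], chi_le_one U x⟩

theorem chi_split (Y U : Clopens Cantor) : chi Y = chi (Y \ U) + chi (Y ⊓ U) := by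
  ext x
  have e1 : x ∈ Y \ U ↔ x ∈ Y ∧ x ∉ U := Iff.rfl
  have e2 : x ∈ Y ⊓ U ↔ x ∈ Y ∧ x ∈ U := Iff.rfl
  by_cases hY : x ∈ Y <;> by_cases hU : x ∈ U
  · rw [ContinuousMap.add_apply, chi_of_mem hY, chi_of_notMem (by simp [e1, hU]),
      chi_of_mem (by simp [e2, hY, hU])]
    norm_num
  · rw [ContinuousMap.add_apply, chi_of_mem hY, chi_of_mem (by simp [e1, hY, hU]),
      chi_of_notMem (by simp [e2, hU])]
    norm_num
  · rw [ContinuousMap.add_apply, chi_of_notMem hY, chi_of_notMem (by simp [e1, hY]),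
      chi_of_notMem (by simp [e2, hY])]
    norm_num
  · rw [ContinuousMap.add_apply, chi_of_notMem hY, chi_of_notMem (by simp [e1, hY]),
      chi_of_notMem (by simp [e2, hY])]
    norm_num

/-- Points at which the functional `f` has mass at least `η`. -/
def atoms (f : C(Cantor, ℝ) →L[ℝ] ℝ) (η : ℝ) : Set Cantor :=
  {t | ∀ U : Clopens Cantor, t ∈ U → ∃ W : Clopens Cantor, W ≤ U ∧ η ≤ |f (chi W)|}

theorem atoms_finite (f : C(Cantor, ℝ) →L[ℝ] ℝ) {η : ℝ} (hη : 0 < η) : (atoms f η).Finite := by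
  by_contra hinf
  obtain ⟨N, hN⟩ := exists_nat_gt (‖f‖ / η)
  obtain ⟨F, hF, hcard⟩ := Set.Infinite.exists_subset_card_eq hinf N
  obtain ⟨O, hO, hdisj⟩ := F.finite_toSet.t2_separation
  have hV : ∀ x, ∃ V : Clopens Cantor, x ∈ V ∧ (V : Set Cantor) ⊆ O x := by
    intro x
    obtain ⟨V, hV1, hV2, hV3⟩ := compact_exists_isClopen_in_isOpen (hO x).2 (hO x).1
    exact ⟨⟨V, hV1⟩, hV2, hV3⟩
  choose V hV1 hV2 using hV
  have hW : ∀ x, ∃ W : Clopens Cantor, W ≤ V x ∧ (x ∈ F → η ≤ |f (chi W)|) := by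
    intro x
    by_cases hx : x ∈ F
    · obtain ⟨W, hW1, hW2⟩ := hF hx (V x) (hV1 x)
      exact ⟨W, hW1, fun _ => hW2⟩
    · exact ⟨V x, le_rfl, fun h => absurd h hx⟩
  choose W hW1 hW2 using hW
  classical
  let σ : Cantor → ℝ := fun x => if 0 ≤ f (chi (W x)) then 1 else -1
  have hσ : ∀ x, |σ x| = 1 := by
    intro x
    simp only [σ]
    split_ifs <;> simp
  have hσ2 : ∀ x, σ x * f (chi (W x)) = |f (chi (W x))| := by
    intro x
    simp only [σ]
    split_ifs with h
    · rw [abs_of_nonneg h, one_mul]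
    · rw [abs_of_neg (not_le.1 h)]; ring
  let z : C(Cantor, ℝ) := ∑ x ∈ F, σ x • chi (W x)
  have hz : ‖z‖ ≤ 1 := by
    rw [ContinuousMap.norm_le _ zero_le_one]
    intro p
    simp only [z, ContinuousMap.coe_sum, Finset.sum_apply, ContinuousMap.coe_smul,
      Pi.smul_apply, smul_eq_mul, Real.norm_eq_abs]
    by_cases hp : ∃ x ∈ F, p ∈ W x
    · obtain ⟨x, hxF, hpx⟩ := hp
      rw [Finset.sum_eq_single x]
      · rw [chi_of_mem hpx, mul_one, hσ]
      · intro y hyF hyx
        rw [chi_of_notMem, mul_zero]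
        intro hpy
        have hd := hdisj (Finset.mem_coe.2 hyF) (Finset.mem_coe.2 hxF) hyx
        exact Set.disjoint_left.1 hd (hV2 y (hW1 y hpy)) (hV2 x (hW1 x hpx))
      · intro h; exact absurd hxF h
    · rw [Finset.sum_eq_zero]
      · simp
      · intro y hy
        rw [chi_of_notMem (fun h => hp ⟨y, hy, h⟩), mul_zero]
  have hfz : (N : ℝ) * η ≤ f z := by
    simp only [z, map_sum, map_smul, smul_eq_mul, hσ2]
    have := Finset.card_nsmul_le_sum F (fun x => |f (chi (W x))|) η (fun x hx => hW2 x hx)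
    rwa [hcard, nsmul_eq_mul] at this
  have h1 : f z ≤ ‖f‖ := by
    calc f z ≤ ‖f z‖ := Real.le_norm_self _
      _ ≤ ‖f‖ * ‖z‖ := f.le_opNorm z
      _ ≤ ‖f‖ * 1 := by gcongr
      _ = ‖f‖ := mul_one _
  rw [div_lt_iff₀ hη] at hN
  linarith

theorem exists_nonatom (f : ℕ → C(Cantor, ℝ) →L[ℝ] ℝ) (g : ℕ → C(Cantor, ℝ) →L[ℝ] ℝ) :
    ∃ t : Cantor, ∀ n, ∀ η : ℝ, 0 < η → t ∉ atoms (f n) η ∧ t ∉ atoms (g n) η := by
  have hc : (⋃ n : ℕ, ⋃ k : ℕ, (atoms (f n) (1 / ((k : ℝ) + 1)) ∪
      atoms (g n) (1 / ((k : ℝ) + 1)))).Countable :=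
    countable_iUnion fun n => countable_iUnion fun k =>
      ((atoms_finite _ (by positivity)).union (atoms_finite _ (by positivity))).countable
  have hne : (⋃ n : ℕ, ⋃ k : ℕ, (atoms (f n) (1 / ((k : ℝ) + 1)) ∪
      atoms (g n) (1 / ((k : ℝ) + 1)))) ≠ univ := by
    intro h
    rw [h, countable_univ_iff] at hc
    obtain ⟨s, hs⟩ := exists_surjective_nat Cantor
    obtain ⟨b, hb⟩ := Function.exists_fixed_point_of_surjective s hs (fun b => !b)
    cases b <;> simp at hb
  obtain ⟨t, ht⟩ := (ne_univ_iff_exists_notMem _).1 hne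
  refine ⟨t, fun n η hη => ?_⟩
  obtain ⟨k, hk⟩ := exists_nat_one_div_lt hη
  simp only [mem_iUnion, mem_union, not_exists, not_or] at ht
  obtain ⟨h1, h2⟩ := ht n k
  constructor
  · intro h
    apply h1
    intro U hU
    obtain ⟨W, hW1, hW2⟩ := h U hU
    exact ⟨W, hW1, hk.le.trans hW2⟩
  · intro h
    apply h2
    intro U hU
    obtain ⟨W, hW1, hW2⟩ := h U hU
    exact ⟨W, hW1, hk.le.trans hW2⟩

/-- The point with a single `true`, at position `m`. -/
def pt (m : ℕ) : Cantor := fun i => decide (i = m)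

/-- The cylinder of length `m + 1` around `pt m`. -/
def cyl (m : ℕ) : Clopens Cantor :=
  ⟨⋂ i ∈ Finset.range (m + 1), (fun x : Cantor => x i) ⁻¹' {pt m i},
    isClopen_biInter_finset fun i _ => (isClopen_discrete _).preimage (continuous_apply i)⟩

theorem pt_mem_cyl (m n : ℕ) : pt m ∈ cyl n ↔ m = n := by
  have : pt m ∈ cyl n ↔ ∀ i, i < n + 1 → pt m i = pt n i := by
    change pt m ∈ (⋂ i ∈ Finset.range (n + 1), (fun x : Cantor => x i) ⁻¹' {pt n i}) ↔ _
    simp
  rw [this]
  constructor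
  · intro h
    have := h n (Nat.lt_succ_self n)
    simp only [pt, decide_true, decide_eq_true_eq] at this
    exact this.symm
  · rintro rfl i _
    rfl

instance countable_clopens : Countable (Clopens Cantor) :=
  Clopens.countable_iff_secondCountable.2 inferInstance

/-- The index set. -/
abbrev Idx : Type := Clopens Cantor × ℕ

/-- An injective coding of the index set. -/
noncomputable def code : Idx → ℕ := Classical.choose (exists_injective_nat Idx)

theorem code_injective : Function.Injective code := Classical.choose_spec (exists_injective_nat Idx)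

/-- The weights. -/
noncomputable def eps (s : Idx) : ℝ := 1 / ((s.2 : ℝ) + 1)

theorem eps_pos (s : Idx) : 0 < eps s := by unfold eps; positivity

theorem eps_le_one (s : Idx) : eps s ≤ 1 := by
  unfold eps
  rw [div_le_one (by positivity)]
  have : (0 : ℝ) ≤ s.2 := Nat.cast_nonneg _
  linarith

/-- The big component. -/
noncomputable def big (s : Idx) : C(Cantor, ℝ) := (1 - eps s) • chi s.1

/-- The small component. -/
noncomputable def small (s : Idx) : C(Cantor, ℝ) := eps s • chi (cyl (code s))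

theorem norm_big (s : Idx) : ‖big s‖ ≤ 1 := by
  rw [big, norm_smul, Real.norm_eq_abs, abs_of_nonneg (by linarith [eps_le_one s])]
  have h1 := norm_chi_le s.1
  have h2 := eps_pos s
  have h3 := eps_le_one s
  have h4 := norm_nonneg (chi s.1)
  nlinarith

theorem norm_small (s : Idx) : ‖small s‖ ≤ 1 := by
  rw [small, norm_smul, Real.norm_eq_abs, abs_of_nonneg (eps_pos s).le]
  have h1 := norm_chi_le (cyl (code s))
  have h2 := eps_pos s
  have h3 := eps_le_one s
  have h4 := norm_nonneg (chi (cyl (code s)))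
  nlinarith

/-- Evaluation at a point. -/
noncomputable def ev (t : Cantor) : C(Cantor, ℝ) →L[ℝ] ℝ := ContinuousMap.evalCLM ℝ t

theorem ev_apply (t : Cantor) (u : C(Cantor, ℝ)) : ev t u = u t := rfl

open Classical in
theorem small_biorth (s s' : Idx) :
    ((eps s)⁻¹ • ev (pt (code s))) (small s') = if s = s' then 1 else 0 := by
  simp only [_root_.smul_apply, ev_apply, small, ContinuousMap.smul_apply,
    smul_eq_mul]
  split_ifs with h
  · subst h
    rw [chi_of_mem ((pt_mem_cyl _ _).2 rfl), mul_one, inv_mul_cancel₀ (eps_pos s).ne']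
  · rw [chi_of_notMem (fun h' => h (code_injective ((pt_mem_cyl _ _).1 h'))), mul_zero, mul_zero]

theorem big_add_small_le (s : Idx) (t : Cantor) : big s t + small s t ≤ 1 := by
  simp only [big, small, ContinuousMap.smul_apply, smul_eq_mul]
  have h1 := chi_le_one s.1 t
  have h2 := chi_le_one (cyl (code s)) t
  have h3 := eps_pos s
  have h4 := eps_le_one s
  nlinarith

theorem bdd_chi (f : C(Cantor, ℝ) →L[ℝ] ℝ) : BddAbove (range fun Y => f (chi Y)) := by
  refine ⟨‖f‖, ?_⟩
  rintro _ ⟨Y, rfl⟩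
  calc f (chi Y) ≤ ‖f (chi Y)‖ := Real.le_norm_self _
    _ ≤ ‖f‖ * ‖chi Y‖ := f.le_opNorm _
    _ ≤ ‖f‖ * 1 := by gcongr; exact norm_chi_le Y
    _ = ‖f‖ := mul_one _

/-- The key estimate: if `f` dominates `g` and has no atom at `t`, the supremum over the
generators is almost attained at a generator that is small at `t`. -/
theorem key (f g : C(Cantor, ℝ) →L[ℝ] ℝ) (t : Cantor) (ht : ∀ η : ℝ, 0 < η → t ∉ atoms f η)
    (hfg : (⨆ Y, g (chi Y)) ≤ ⨆ Y, f (chi Y)) {η : ℝ} (hη : 0 < η) :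
    ∃ s : Idx, big s t + small s t ≤ 1 / 2 ∧
      ∀ s' : Idx, f (big s') + g (small s') ≤ f (big s) + g (small s) + η := by
  set p := ⨆ Y, f (chi Y) with hp
  have hup : ∀ s' : Idx, f (big s') + g (small s') ≤ p := by
    intro s'
    simp only [big, small, map_smul, smul_eq_mul]
    have h1 : f (chi s'.1) ≤ p := le_ciSup (bdd_chi f) s'.1
    have h2 : g (chi (cyl (code s'))) ≤ p := (le_ciSup (bdd_chi g) _).trans hfg
    have h3 := eps_pos s'
    have h4 := eps_le_one s'
    nlinarith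
  obtain ⟨Y, hY⟩ := exists_lt_of_lt_ciSup (show p - η / 3 < ⨆ Y, f (chi Y) by linarith)
  have h1 := ht (η / 3) (by linarith)
  simp only [atoms, mem_ofPred_eq, not_forall, not_exists, not_and, not_le] at h1
  obtain ⟨U, htU, hU⟩ := h1
  have h2 := hU (Y ⊓ U) inf_le_right
  have h3 : f (chi Y) = f (chi (Y \ U)) + f (chi (Y ⊓ U)) := by
    rw [← map_add, ← chi_split]
  have h4 : p - 2 * η / 3 < f (chi (Y \ U)) := by
    have := (abs_lt.1 h2).2
    linarith
  have hC : 0 < ‖f‖ + ‖g‖ + 1 := by positivity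
  obtain ⟨k, hk⟩ := exists_nat_one_div_lt
    (show 0 < min (1 / 2 : ℝ) (η / 3 / (‖f‖ + ‖g‖ + 1)) by positivity)
  have hk1 : eps (Y \ U, k) < 1 / 2 := hk.trans_le (min_le_left _ _)
  have hk2 : eps (Y \ U, k) * (‖f‖ + ‖g‖ + 1) < η / 3 :=
    (lt_div_iff₀ hC).1 (hk.trans_le (min_le_right _ _))
  refine ⟨(Y \ U, k), ?_, fun s' => (hup s').trans ?_⟩
  · simp only [big, small, ContinuousMap.smul_apply, smul_eq_mul]
    have e1 : t ∈ Y \ U ↔ t ∈ Y ∧ t ∉ U := Iff.rfl
    rw [chi_of_notMem (by simp [e1, htU])]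
    have h5 := chi_le_one (cyl (code (Y \ U, k))) t
    have h6 := eps_pos (Y \ U, k)
    nlinarith
  · simp only [big, small, map_smul, smul_eq_mul]
    have h5 : |f (chi (Y \ U))| ≤ ‖f‖ := by
      calc |f (chi (Y \ U))| = ‖f (chi (Y \ U))‖ := rfl
        _ ≤ ‖f‖ * ‖chi (Y \ U)‖ := f.le_opNorm _
        _ ≤ ‖f‖ * 1 := by gcongr; exact norm_chi_le _
        _ = ‖f‖ := mul_one _
    have h6 : |g (chi (cyl (code (Y \ U, k))))| ≤ ‖g‖ := by
      calc |g (chi (cyl (code (Y \ U, k))))| = ‖g (chi (cyl (code (Y \ U, k))))‖ := rfl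
        _ ≤ ‖g‖ * ‖chi (cyl (code (Y \ U, k)))‖ := g.le_opNorm _
        _ ≤ ‖g‖ * 1 := by gcongr; exact norm_chi_le _
        _ = ‖g‖ := mul_one _
    have h7 := (abs_le.1 h5).2
    have h8 := (abs_le.1 h6).1
    have h9 := eps_pos (Y \ U, k)
    nlinarith

end Cantor

/-- There are a real Banach space and two convex hereditarily SCD sets in it whose Minkowski
sum is not SCD. -/
theorem main :
    ∃ (X : Type) (_ : NormedAddCommGroup X) (_ : NormedSpace ℝ X) (_ : CompleteSpace X)
      (U₁ U₂ : Set X), Convex ℝ U₁ ∧ Convex ℝ U₂ ∧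
        IsHereditarilySCD U₁ ∧ IsHereditarilySCD U₂ ∧ ¬ IsSCD (U₁ + U₂) := by
  classical
  let a : Idx → C(Cantor, ℝ) × C(Cantor, ℝ) := fun s => (big s, small s)
  let b : Idx → C(Cantor, ℝ) × C(Cantor, ℝ) := fun s => (small s, big s)
  have hne : Nonempty Idx := ⟨(⊤, 0)⟩
  have hba : Bornology.IsBounded (range a) := by
    refine isBounded_iff_forall_norm_le.2 ⟨1, ?_⟩
    rintro _ ⟨s, rfl⟩
    exact norm_prod_le_iff.2 ⟨norm_big s, norm_small s⟩
  have hbb : Bornology.IsBounded (range b) := by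
    refine isBounded_iff_forall_norm_le.2 ⟨1, ?_⟩
    rintro _ ⟨s, rfl⟩
    exact norm_prod_le_iff.2 ⟨norm_small s, norm_big s⟩
  refine ⟨C(Cantor, ℝ) × C(Cantor, ℝ), inferInstance, inferInstance, inferInstance,
    convexHull ℝ (range a), convexHull ℝ (range b), convex_convexHull ℝ _, convex_convexHull ℝ _,
    hereditarilySCD_convexHull a hba
      (fun s => ((eps s)⁻¹ • ev (pt (code s))).comp (ContinuousLinearMap.snd ℝ _ _))
      (fun i j => by convert small_biorth i j using 1; rfl),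
    hereditarilySCD_convexHull b hbb
      (fun s => ((eps s)⁻¹ • ev (pt (code s))).comp (ContinuousLinearMap.fst ℝ _ _))
      (fun i j => by convert small_biorth i j using 1; rfl), ?_⟩
  rintro ⟨-, h, α, -, hα, hdet⟩
  let f : ℕ → C(Cantor, ℝ) →L[ℝ] ℝ := fun n => (h n).comp (ContinuousLinearMap.inl ℝ _ _)
  let g : ℕ → C(Cantor, ℝ) →L[ℝ] ℝ := fun n => (h n).comp (ContinuousLinearMap.inr ℝ _ _)
  have hfg : ∀ n u v, h n (u, v) = f n u + g n v := by
    intro n u v
    simp only [f, g, ContinuousLinearMap.comp_apply, ContinuousLinearMap.inl_apply,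
      ContinuousLinearMap.inr_apply, ← map_add, Prod.mk_add_mk, add_zero, zero_add]
  obtain ⟨t, ht⟩ := exists_nonatom f g
  let δ : C(Cantor, ℝ) × C(Cantor, ℝ) →L[ℝ] ℝ :=
    (ev t).comp (ContinuousLinearMap.fst ℝ _ _) + (ev t).comp (ContinuousLinearMap.snd ℝ _ _)
  have hδ : ∀ u v, δ (u, v) = u t + v t := fun u v => rfl
  have hδa : ∀ x ∈ convexHull ℝ (range a), δ x ≤ 1 := by
    apply convexHull_le
    rintro _ ⟨s, rfl⟩
    exact big_add_small_le s t
  have hδb : ∀ x ∈ convexHull ℝ (range b), δ x ≤ 1 := by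
    apply convexHull_le
    rintro _ ⟨s, rfl⟩
    have := big_add_small_le s t
    simp only [b, hδ]
    linarith
  have hB : ∀ n, ({x | δ x ≤ 3 / 2} ∩
      slice (convexHull ℝ (range a) + convexHull ℝ (range b)) (h n) (α n)).Nonempty := by
    intro n
    have hne' : (h n '' (convexHull ℝ (range a) + convexHull ℝ (range b))).Nonempty := by
      obtain ⟨s⟩ := hne
      exact ⟨_, _, add_mem_add (subset_convexHull ℝ _ ⟨s, rfl⟩)
        (subset_convexHull ℝ _ ⟨s, rfl⟩), rfl⟩
    have hαn := hα n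
    obtain ⟨_, ⟨_, ⟨x, hx, y, hy, rfl⟩, rfl⟩, hxy⟩ := exists_lt_of_lt_csSup hne'
      (show sSup (h n '' (convexHull ℝ (range a) + convexHull ℝ (range b))) - α n / 2 <
        sSup (h n '' (convexHull ℝ (range a) + convexHull ℝ (range b))) by linarith)
    simp only [map_add] at hxy
    rcases le_total (⨆ Y, g n (chi Y)) (⨆ Y, f n (chi Y)) with hle | hle
    · obtain ⟨s, hs1, hs2⟩ := key (f n) (g n) t (fun η hη => (ht n η hη).1) hle
        (show 0 < α n / 2 by linarith)
      have h1 : h n x ≤ h n (a s) + α n / 2 := by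
        refine convexHull_le (h n) _ ?_ x hx
        rintro _ ⟨s', rfl⟩
        simp only [a, hfg]
        exact hs2 s'
      refine ⟨a s + y, ?_, add_mem_add (subset_convexHull ℝ _ ⟨s, rfl⟩) hy, ?_⟩
      · have h2 := hδb y hy
        have h3 : δ (a s) ≤ 1 / 2 := hs1
        simp only [mem_ofPred_eq, map_add]
        linarith
      · rw [map_add]
        linarith
    · obtain ⟨s, hs1, hs2⟩ := key (g n) (f n) t (fun η hη => (ht n η hη).2) hle
        (show 0 < α n / 2 by linarith)
      have h1 : h n y ≤ h n (b s) + α n / 2 := by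
        refine convexHull_le (h n) _ ?_ y hy
        rintro _ ⟨s', rfl⟩
        simp only [b, hfg]
        have := hs2 s'
        linarith
      refine ⟨x + b s, ?_, add_mem_add hx (subset_convexHull ℝ _ ⟨s, rfl⟩), ?_⟩
      · have h2 := hδa x hx
        have h3 : δ (b s) ≤ 1 / 2 := by
          simp only [b, hδ]
          linarith
        simp only [mem_ofPred_eq, map_add]
        linarith
      · rw [map_add]
        linarith
  have hsub := hdet _ hB
  have hconv : Convex ℝ {x | δ x ≤ 3 / 2} := convex_halfSpace_le δ.toLinearMap.isLinear _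
  have hclosed : IsClosed {x | δ x ≤ 3 / 2} := isClosed_le δ.continuous continuous_const
  rw [hconv.convexHull_eq, hclosed.closure_eq] at hsub
  have hmem := hsub (add_mem_add (subset_convexHull ℝ _ ⟨((⊤ : Clopens Cantor), 9), rfl⟩)
    (subset_convexHull ℝ _ ⟨((⊤ : Clopens Cantor), 9), rfl⟩))
  rw [mem_ofPred_eq, map_add] at hmem
  simp only [a, b, hδ, big, small, ContinuousMap.smul_apply, smul_eq_mul] at hmem
  rw [chi_of_mem (show t ∈ (⊤ : Clopens Cantor) from trivial)] at hmem
  have h1 := chi_nonneg (cyl (code ((⊤ : Clopens Cantor), 9))) t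
  have h2 : eps ((⊤ : Clopens Cantor), 9) = 1 / 10 := by norm_num [eps]
  rw [h2] at hmem
  linarith

end Pool.Agent.P.MP_94cdcb_an
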